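import Pool.Agent.H505RS.Fin2
import Pool.Agent.H505RS.AE1
import Pool.Agent.H505RS.AE2
import Pool.Agent.H505RS.BC
import Pool.Agent.H505RS.BPE
import Pool.Agent.H505RS.DEC
import Pool.Agent.H505RS.DL
import Pool.Agent.H505RS.FIN
import Pool.Agent.H505RS.GPR
import Pool.Agent.H505RS.GR1
import Pool.Agent.H505RS.GR2
import Pool.Agent.H505RS.HC
import Pool.Agent.H505RS.INT
import Pool.Agent.H505RS.IS
import Pool.Agent.H505RS.MB
import Pool.Agent.H505RS.MBN
import Pool.Agent.H505RS.MF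
import Pool.Agent.H505RS.MRE
import Pool.Agent.H505RS.PB
import Pool.Agent.H505RS.PI
import Pool.Agent.H505RS.PJ
import Pool.Agent.H505RS.PM
import Pool.Agent.H505RS.PR
import Pool.Agent.H505RS.PRM
import Pool.Agent.H505RS.Q1
import Pool.Agent.H505RS.Q2
import Pool.Agent.H505RS.QF
import Pool.Agent.H505RS.SF
import Pool.Agent.H505RS.SM
import Pool.Agent.H505RS.SUM
import Pool.Agent.H505RS.T1
import Pool.Agent.H505RS.TR
import Pool.Agent.H505RS.VB
import Pool.Agent.H505RS.VC
import Pool.Agent.H505RS.VDC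
import Pool.Agent.H505RS.WM
import Pool.Agent.H505RS.XA
import Pool.Agent.H505RS.XM
import Pool.Agent.H505RS.XV

/-! Multiple ergodic averages along two independent random sparse sequences: almost sure pointwise
and `L²` convergence for all exponents `a, b` in `(0, 1/2)`. -/

set_option autoImplicit false

namespace Pool.Agent.Results.MP_9a4587_an.RandomPair

open MeasureTheory ProbabilityTheory Filter Topology
open scoped ENNReal
open Pool.Agent.H505RS

universe u v

/-- Let `a, b` be exponents in `(0, 1/2)` (equal or not) and let `A 1, B 1, A 2, B 2, ...` be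
mutually independent events with `P (A n) = n ^ (-a)` and `P (B n) = n ^ (-b)`. Almost surely
(one event of probability one for all systems and functions) the sets `{n ≥ 1 : ω ∈ A n}` and
`{n ≥ 1 : ω ∈ B n}` are infinite and, with `a_1 < a_2 < ...` and `b_1 < b_2 < ...` their elements,
for every probability space `X` with two commuting measure preserving maps `T`, `S` (invertible or
not) and all essentially bounded complex functions `f`, `g` on it the averages
`(1 / N) ∑_{k ≤ N} f (T ^ (a_k) x) g (S ^ (b_k) x)` converge to the product of the conditional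
expectations of `f` and of `g` on the `T`-invariant and on the `S`-invariant sets,
for almost every `x` and in `L²`. (`Nat.nth p k` is the `k`-th number with the property `p`,
counted from `k = 0`.) -/
theorem result (a b : ℝ) (ha : 0 < a) (ha' : a < 1 / 2) (hb : 0 < b) (hb' : b < 1 / 2)
    (Ω : Type v) [MeasurableSpace Ω] (P : Measure Ω) [IsProbabilityMeasure P]
    (A B : ℕ → Set Ω) (hA : ∀ n, 1 ≤ n → MeasurableSet (A n))
    (hB : ∀ n, 1 ≤ n → MeasurableSet (B n))
    (hPA : ∀ n : ℕ, 1 ≤ n → P (A n) = ENNReal.ofReal ((n : ℝ) ^ (-a)))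
    (hPB : ∀ n : ℕ, 1 ≤ n → P (B n) = ENNReal.ofReal ((n : ℝ) ^ (-b)))
    (hind : iIndepSet (Sum.elim (fun n : ℕ => A (n + 1)) (fun n : ℕ => B (n + 1))) P) :
    ∀ᵐ ω ∂P, {n : ℕ | 1 ≤ n ∧ ω ∈ A n}.Infinite ∧ {n : ℕ | 1 ≤ n ∧ ω ∈ B n}.Infinite ∧
      ∀ (X : Type u) [MeasurableSpace X] (μ : Measure X) [IsProbabilityMeasure μ] (T S : X → X),
        MeasurePreserving T μ μ → MeasurePreserving S μ μ → (∀ x, T (S x) = S (T x)) →
        ∀ f g : X → ℂ, MemLp f ⊤ μ → MemLp g ⊤ μ →
          (∀ᵐ x ∂μ, Tendsto (fun N : ℕ => (1 / (N : ℂ)) * ∑ k ∈ Finset.range N,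
              f (T^[Nat.nth (fun n => 1 ≤ n ∧ ω ∈ A n) k] x) *
              g (S^[Nat.nth (fun n => 1 ≤ n ∧ ω ∈ B n) k] x)) atTop
            (𝓝 ((condExp (MeasurableSpace.invariants T) μ f) x *
              (condExp (MeasurableSpace.invariants S) μ g) x))) ∧
          Tendsto (fun N : ℕ => eLpNorm (fun x => (1 / (N : ℂ)) * ∑ k ∈ Finset.range N,
              f (T^[Nat.nth (fun n => 1 ≤ n ∧ ω ∈ A n) k] x) *
              g (S^[Nat.nth (fun n => 1 ≤ n ∧ ω ∈ B n) k] x) -
            (condExp (MeasurableSpace.invariants T) μ f) x *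
              (condExp (MeasurableSpace.invariants S) μ g) x) 2 μ) atTop (𝓝 0) := by
  classical
  have hGR1 : S_GR1 := t_GR1 t_SUM
  have hGR2 : S_GR2 := t_GR2 t_SUM
  have hPM : S_PM.{v} := t_PM t_QF
  have hMBN : S_MBN := t_MBN t_MB t_QF
  have hXC : S_XC := t_XC (t_XA t_VB t_DL) (t_XM t_QF (t_Q1 t_QF) t_DL)
    (t_XV t_QF (t_Q2 t_QF) t_VB t_VC t_DL)
  have hPB' : S_PB.{v} := t_PB hPM hMBN hXC t_DL
  have hMRE : S_MRE.{v} := t_MRE hPB'
  have hPRM : S_PRM.{u} := t_PRM t_PI t_PJ t_GPR t_TR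
  have hMF : S_MF.{u} := t_MF t_VDC (t_PR hPRM)
  have hSF : S_SF.{u} := t_SF t_T1
  have hSM : S_SM.{u} := t_SM (t_DEC t_BPE) t_WM t_BPE
  have hAE1 : S_AE1.{u} := t_AE1 hSF t_BC t_INT t_BPE t_WM
  have hAE2 : S_AE2.{u} := t_AE2 hMF t_BC t_INT hSM
  have hFIN : S_FIN.{u} := t_FIN hAE1 hAE2
  exact main_result hFIN hGR1 hGR2 hMRE t_HC t_IS a b ha ha' hb hb' Ω P A B hA hB hPA hPB hind

end Pool.Agent.Results.MP_9a4587_an.RandomPair
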